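import Pool.Agent.R287.UPd

open Pool.Agent.R287.UP

universe u v w

namespace Pool.Agent.Results.MP_0564d2_an.LindenstraussUniversal

/-- In ZFC: over a countably incomplete `κ`-good ultrafilter every Lindenstrauss ultraproduct is
universally `(1, κ)`-injective. -/
theorem result {κ : Cardinal.{u}} {I : Type v} (U : Ultrafilter I) (hI : CountablyIncomplete U)
    (hg : IsGood U κ) (X : I → Type w) [∀ i, NormedAddCommGroup (X i)]
    [∀ i, NormedSpace ℝ (X i)] (hE : IsLindenstrauss (UltraProd ℝ U X)) :
    UnivInjective ℝ κ 1 (UltraProd ℝ U X) :=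
  univInjective_of_isLInfty κ hI hg zero_le_one hE

end Pool.Agent.Results.MP_0564d2_an.LindenstraussUniversal
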